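import Mathlib
import Pool.Agent.H76.BWRigid

/-!
# The kissing configurations of the Barnes-Wall lattices are jammed

We prove that for every `k ≥ 1` the kissing configuration of the Barnes-Wall lattice of rank `2 ^ k`
is jammed: every motion of it that never decreases the minimal angle is induced by orthogonal
transformations.
-/

open Set
open scoped RealInnerProductSpace

namespace Pool.Agent.Results.MP_389516_gt.BarnesWallJammed

section Codes

variable {V : Type*} [NormedAddCommGroup V] [InnerProductSpace ℝ V]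

/-- The minimal angle of a spherical code: the smallest angle between two distinct points. -/
noncomputable def minAngle (C : Set V) : ℝ :=
  sInf {θ | ∃ x ∈ C, ∃ y ∈ C, x ≠ y ∧ θ = InnerProductGeometry.angle x y}

/-- A motion of a spherical code `C`: every point `x` of `C` moves along a path `γ x` which is
continuous on `[0,1]`, starts at `x` and stays on the unit sphere, and at all times the inner
products of distinct points are at most the cosine of the minimal angle of `C`. -/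
structure IsMotion (C : Set V) (γ : C → ℝ → V) : Prop where
  continuousOn : ∀ x, ContinuousOn (γ x) (Icc 0 1)
  start : ∀ x, γ x 0 = x
  norm_eq_one : ∀ x, ∀ t ∈ Icc (0 : ℝ) 1, ‖γ x t‖ = 1
  inner_le : ∀ x y, x ≠ y → ∀ t ∈ Icc (0 : ℝ) 1, ⟪γ x t, γ y t⟫ ≤ Real.cos (minAngle C)

/-- A spherical code is jammed if every motion is trivial, that is, given at each time by an
orthogonal transformation. -/
def IsJammed (C : Set V) : Prop :=
  ∀ γ : C → ℝ → V, IsMotion C γ → ∀ t ∈ Icc (0 : ℝ) 1, ∃ g : V ≃ₗᵢ[ℝ] V, ∀ x : C, γ x t = g x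

/-- The kissing configuration of a lattice `Λ`: its nonzero vectors of minimal norm, rescaled to
unit length. -/
def kissingConfiguration (Λ : Set V) : Set V :=
  {x | ∃ v ∈ Λ, v ≠ 0 ∧ (∀ w ∈ Λ, w ≠ 0 → ‖v‖ ≤ ‖w‖) ∧ x = ‖v‖⁻¹ • v}

end Codes

/-- The matrix `M = (1, 1; 0, 1 + i)`. -/
noncomputable def M : Matrix (Fin 2) (Fin 2) ℂ := !![1, 1; 0, 1 + Complex.I]

/-- The Kronecker power `M ⊗ ⋯ ⊗ M` with `m` factors; rows and columns are indexed by
`Fin m → Fin 2`. -/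
noncomputable def kroneckerPower (m : ℕ) : Matrix (Fin m → Fin 2) (Fin m → Fin 2) ℂ :=
  fun a b => ∏ j, M (a j) (b j)

/-- The Barnes-Wall lattice of rank `2 ^ k`: the `ℤ[i]`-span of the rows of the `(k-1)`-st Kronecker
power of `M`, a lattice in `ℂ^(2^(k-1))`, which is a real Euclidean space of dimension `2^k`. -/
noncomputable def barnesWall (k : ℕ) : Set (EuclideanSpace ℂ (Fin (k - 1) → Fin 2)) :=
  {v | ∃ c : (Fin (k - 1) → Fin 2) → GaussianInt,
    v = ∑ a, (c a : ℂ) • WithLp.toLp 2 (kroneckerPower (k - 1) a)}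

open Pool.Agent.H76.Jam

lemma kron_cons (m : ℕ) (x y : Fin 2) (a b : Fin m → Fin 2) :
    kroneckerPower (m + 1) (Fin.cons x a) (Fin.cons y b) = M x y * kroneckerPower m a b := by
  simp [kroneckerPower, Fin.prod_univ_succ]

/-- The lattice agrees with its recursive description. -/
lemma mem_iff (m : ℕ) (v : EuclideanSpace ℂ (Fin m → Fin 2)) :
    (∃ c : (Fin m → Fin 2) → GaussianInt,
      v = ∑ a, (c a : ℂ) • WithLp.toLp 2 (kroneckerPower m a)) ↔ L m v := by
  induction m with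
  | zero =>
    rw [L_zero_iff]
    have hk : ∀ a b : Fin 0 → Fin 2, kroneckerPower 0 a b = 1 := fun a b => by
      simp [kroneckerPower]
    constructor
    · rintro ⟨c, rfl⟩
      refine ⟨c default, fun a => ?_⟩
      simp only [hk, Finset.univ_unique, Finset.sum_singleton, PiLp.smul_apply, smul_eq_mul,
        mul_one]
      exact congrArg (fun x => (c x : ℂ)) (Subsingleton.elim _ _)
    · rintro ⟨c, hc⟩
      refine ⟨fun _ => c, ?_⟩
      ext a
      rw [hc a]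
      simp [hk]
  | succ m ih =>
    rw [L_succ_iff]
    have hf : ∀ c : (Fin (m + 1) → Fin 2) → GaussianInt,
        fstP (∑ a, (c a : ℂ) • WithLp.toLp 2 (kroneckerPower (m + 1) a)) =
          ∑ a, (c (Fin.cons 0 a) : ℂ) • WithLp.toLp 2 (kroneckerPower m a) := by
      intro c
      ext b
      rw [fstP_apply, sum_halves]
      simp [kron_cons, M]
    have hs : ∀ c : (Fin (m + 1) → Fin 2) → GaussianInt,
        sndP (∑ a, (c a : ℂ) • WithLp.toLp 2 (kroneckerPower (m + 1) a)) =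
          ∑ a, (c (Fin.cons 0 a) : ℂ) • WithLp.toLp 2 (kroneckerPower m a) +
          φ • ∑ a, (c (Fin.cons 1 a) : ℂ) • WithLp.toLp 2 (kroneckerPower m a) := by
      intro c
      ext b
      rw [sndP_apply, sum_halves]
      simp [kron_cons, M, φ, Finset.mul_sum, mul_left_comm]
    constructor
    · rintro ⟨c, rfl⟩
      rw [hf, hs]
      exact ⟨(ih _).1 ⟨_, rfl⟩, _, (ih _).1 ⟨_, rfl⟩, rfl⟩
    · rintro ⟨h1, z, hz, h2⟩
      obtain ⟨c, hc⟩ := (ih _).2 h1
      obtain ⟨d, hd⟩ := (ih _).2 hz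
      refine ⟨fun a => if a 0 = 0 then c (Fin.tail a) else d (Fin.tail a), ?_⟩
      apply ext_halves
      · rw [hf, hc]
        simp
      · rw [hs, h2, hc, hd]
        simp

/-! ### The scaled minimal vectors -/

lemma S_finite (m : ℕ) : {v | S m v}.Finite := by
  induction m with
  | zero =>
    have hU : (U : Set ℂ).Finite := by
      unfold U
      exact Set.toFinite _
    refine (hU.image (fun ε => ε • (e 0 : E 0))).subset ?_
    intro v hv
    obtain ⟨ε, hε, h⟩ := S_zero hv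
    exact ⟨ε, hε, h.symm⟩
  | succ m ih =>
    have h1 := ih.image (fun z => (pair (φ • z) 0 : E (m + 1)))
    have h2 := ih.image (fun z => (pair 0 (φ • z) : E (m + 1)))
    have h3 := (ih.prod ih).image (fun p => (pair p.1 p.2 : E (m + 1)))
    refine ((h1.union h2).union h3).subset ?_
    intro v hv
    rcases S_succ hv with ⟨z, hz, rfl⟩ | ⟨z, hz, rfl⟩ | ⟨hu, hw, -⟩
    · exact Or.inl (Or.inl ⟨z, hz, rfl⟩)
    · exact Or.inl (Or.inr ⟨z, hz, rfl⟩)
    · exact Or.inr ⟨(fstP v, sndP v), ⟨hu, hw⟩, pair_halves v⟩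

/-- The kissing configuration consists of the scaled minimal vectors. -/
lemma kissing_eq (m : ℕ) : kissingConfiguration {v : E m | L m v} =
    (fun v => (Real.sqrt (2 ^ m))⁻¹ • v) '' {v | S m v} := by
  have hx0 : S m (x0 m) := by
    refine ⟨L_e 0, ?_⟩
    rw [x0, norm_smul, norm_e, mul_one, norm_pow_φ]
  have hnorm : ∀ v, S m v → ‖v‖ = Real.sqrt (2 ^ m) := by
    intro v hv
    rw [← hv.2, Real.sqrt_sq (norm_nonneg _)]
  ext x
  constructor
  · rintro ⟨v, hv, hv0, hmin, rfl⟩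
    have h1 : ‖v‖ ≤ ‖x0 m‖ := hmin _ hx0.1 hx0.ne_zero
    have h2 := min_norm hv hv0
    have h3 : ‖v‖ ^ 2 ≤ ‖x0 m‖ ^ 2 := by gcongr
    rw [hx0.2] at h3
    have hS : S m v := ⟨hv, le_antisymm h3 h2⟩
    exact ⟨v, hS, by rw [hnorm v hS]⟩
  · rintro ⟨v, hv, rfl⟩
    refine ⟨v, hv.1, hv.ne_zero, ?_, by simp only [hnorm v hv]⟩
    intro w hw hw0
    have h1 := min_norm hw hw0
    rw [← hv.2] at h1
    exact (sq_le_sq₀ (norm_nonneg _) (norm_nonneg _)).1 h1

/-- If `c` is the largest inner product of distinct points of a code then it is the cosine of the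
minimal angle. -/
lemma cos_minAngle {V : Type*} [NormedAddCommGroup V] [InnerProductSpace ℝ V] {C : Set V}
    (hC : ∀ x ∈ C, ‖x‖ = 1) {c : ℝ} (hle : ∀ x ∈ C, ∀ y ∈ C, x ≠ y → ⟪x, y⟫ ≤ c)
    (hex : ∃ x ∈ C, ∃ y ∈ C, x ≠ y ∧ ⟪x, y⟫ = c) : Real.cos (minAngle C) = c := by
  obtain ⟨x, hx, y, hy, hxy, hc⟩ := hex
  have hang : ∀ u ∈ C, ∀ v ∈ C, InnerProductGeometry.angle u v = Real.arccos ⟪u, v⟫ := by
    intro u hu v hv
    rw [InnerProductGeometry.angle, hC u hu, hC v hv]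
    simp
  have hleast : IsLeast {θ | ∃ x ∈ C, ∃ y ∈ C, x ≠ y ∧ θ = InnerProductGeometry.angle x y}
      (Real.arccos c) := by
    constructor
    · exact ⟨x, hx, y, hy, hxy, by rw [hang x hx y hy, hc]⟩
    · rintro θ ⟨u, hu, v, hv, huv, rfl⟩
      rw [hang u hu v hv]
      exact Real.antitone_arccos (hle u hu v hv huv)
  rw [minAngle, hleast.csInf_eq]
  have h1 : |⟪x, y⟫| ≤ ‖x‖ * ‖y‖ := abs_real_inner_le_norm x y
  rw [hC x hx, hC y hy, mul_one, hc] at h1
  exact Real.cos_arccos (abs_le.1 h1).1 (abs_le.1 h1).2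

/-- The general criterion, for sets. -/
lemma jammed_of_inf {V : Type*} [NormedAddCommGroup V] [InnerProductSpace ℝ V]
    [FiniteDimensional ℝ V] {C : Set V} (hfin : C.Finite)
    (hC : ∀ x ∈ C, ‖x‖ = 1) {c : ℝ} (hle : ∀ x ∈ C, ∀ y ∈ C, x ≠ y → ⟪x, y⟫ ≤ c)
    (hex : ∃ x ∈ C, ∃ y ∈ C, x ≠ y ∧ ⟪x, y⟫ = c)
    (hinf : ∀ δ : V → V, (∀ x ∈ C, ⟪x, δ x⟫ = 0) →
      (∀ x ∈ C, ∀ y ∈ C, ⟪x, y⟫ = c → ⟪x, δ y⟫ + ⟪y, δ x⟫ ≤ 0) →
      ∃ A : V →L[ℝ] V, (∀ v, ⟪A v, v⟫ = 0) ∧ ∀ x ∈ C, δ x = A x) : IsJammed C := by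
  classical
  intro γ hγ
  have : Fintype C := hfin.fintype
  have hcos := cos_minAngle hC hle hex
  have hfeas : Feas c (fun x : C => (x : V)) :=
    ⟨fun x => hC x x.2, fun x y hxy => hle x x.2 y y.2 fun h => hxy (Subtype.ext h)⟩
  have hc1 : c ≠ 1 := by
    obtain ⟨x, hx, y, hy, hxy, hc⟩ := hex
    rintro rfl
    exact hxy ((inner_eq_one_iff_of_norm_eq_one (𝕜 := ℝ) (hC x hx) (hC y hy)).1 hc)
  have hI : InfRigid c (fun x : C => (x : V)) := by
    intro δ h1 h2
    let δ' : V → V := fun v => if h : v ∈ C then δ ⟨v, h⟩ else 0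
    have hδ' : ∀ x : C, δ' x = δ x := fun x => by simp [δ']
    obtain ⟨A, hA, hA1⟩ := hinf δ' (fun x hx => by rw [hδ' ⟨x, hx⟩]; exact h1 ⟨x, hx⟩)
      (fun x hx y hy hxy => by
        rw [hδ' ⟨x, hx⟩, hδ' ⟨y, hy⟩]
        apply h2 ⟨x, hx⟩ ⟨y, hy⟩ _ hxy
        intro h
        have h' : x = y := congrArg Subtype.val h
        rw [h', real_inner_self_eq_norm_sq, hC y hy] at hxy
        exact hc1 (by rw [← hxy]; norm_num))
    exact ⟨A, hA, fun x => by rw [← hδ' x]; exact hA1 x x.2⟩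
  apply motion_trivial hfeas hI γ hγ.continuousOn hγ.start
  intro t ht
  exact ⟨fun x => hγ.norm_eq_one x t ht, fun x y hxy => by
    rw [← hcos]; exact hγ.inner_le x y hxy t ht⟩

/-- Infinitesimal rigidity in rank two (four points on a circle). -/
lemma bw_inf_zero (δ : E 0 → E 0) (h1 : ∀ r, S 0 r → ⟪r, δ r⟫ = 0)
    (h2 : ∀ r s, S 0 r → S 0 s → ⟪r, s⟫ = 0 → ⟪r, δ s⟫ + ⟪s, δ r⟫ ≤ 0) :
    ∃ A : E 0 →L[ℝ] E 0, (∀ v, ⟪A v, v⟫ = 0) ∧ ∀ r, S 0 r → δ r = A r := by
  have hS : ∀ ε ∈ U, S 0 (ε • e 0) := by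
    intro ε hε
    refine ⟨?_, ?_⟩
    · have := L_unit hε (L_e (0 : Fin 0 → Fin 2))
      rwa [pow_zero, one_smul] at this
    · rw [norm_smul, U_norm hε, norm_e]; norm_num
  have hin : ∀ (ε : ℂ) (v : E 0), ⟪ε • e 0, v⟫ = (v 0 * (starRingEnd ℂ) ε).re := by
    intro ε v
    rw [real_inner_comm, inner_unit_smul_e]
  have hin2 : ∀ ε η : ℂ, ⟪ε • (e 0 : E 0), η • e 0⟫ = (η * (starRingEnd ℂ) ε).re := by
    intro ε η
    rw [hin, PiLp.smul_apply, e_apply, if_pos rfl, smul_eq_mul, mul_one]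
  have u1 : (1 : ℂ) ∈ U := by simp [U]
  have u2 : (Complex.I : ℂ) ∈ U := by simp [U]
  have u3 : (-1 : ℂ) ∈ U := by simp [U]
  have u4 : (-Complex.I : ℂ) ∈ U := by simp [U]
  have a1 := h1 _ (hS _ u1)
  have a2 := h1 _ (hS _ u2)
  have a3 := h1 _ (hS _ u3)
  have a4 := h1 _ (hS _ u4)
  have b1 := h2 _ _ (hS _ u1) (hS _ u2) (by rw [hin2]; simp)
  have b2 := h2 _ _ (hS _ u2) (hS _ u3) (by rw [hin2]; simp)
  have b3 := h2 _ _ (hS _ u3) (hS _ u4) (by rw [hin2]; simp)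
  have b4 := h2 _ _ (hS _ u4) (hS _ u1) (by rw [hin2]; simp)
  simp only [hin, map_one, mul_one, Complex.conj_I, map_neg, mul_neg, Complex.mul_re,
    Complex.I_re, Complex.I_im, mul_zero, zero_sub, neg_neg, Complex.neg_re] at a1 a2 a3 a4 b1 b2 b3 b4
  obtain ⟨d1, hd1⟩ : ∃ d, d = (δ ((1 : ℂ) • e 0)) 0 := ⟨_, rfl⟩
  obtain ⟨d2, hd2⟩ : ∃ d, d = (δ (Complex.I • e 0)) 0 := ⟨_, rfl⟩
  obtain ⟨d3, hd3⟩ : ∃ d, d = (δ ((-1 : ℂ) • e 0)) 0 := ⟨_, rfl⟩
  obtain ⟨d4, hd4⟩ : ∃ d, d = (δ (-Complex.I • e 0)) 0 := ⟨_, rfl⟩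
  rw [← hd1] at a1 b1 b4
  rw [← hd2] at a2 b1 b2
  rw [← hd3] at a3 b2 b3
  rw [← hd4] at a4 b3 b4
  refine ⟨((d1.im : ℂ) * Complex.I) • ContinuousLinearMap.id ℝ (E 0), ?_, ?_⟩
  · intro v
    change ⟪((d1.im : ℂ) * Complex.I) • v, v⟫ = 0
    rw [PiLp.inner_apply]
    apply Finset.sum_eq_zero
    intro a _
    rw [PiLp.smul_apply, Complex.inner]
    simp
    ring
  · intro r hr
    obtain ⟨ε, hε, rfl⟩ := S_zero hr
    ext a
    have ha : a = 0 := Subsingleton.elim _ _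
    subst ha
    change _ = (((d1.im : ℂ) * Complex.I) • ε • (e 0 : E 0)) 0
    rw [PiLp.smul_apply, PiLp.smul_apply, e_apply, if_pos rfl, smul_eq_mul, smul_eq_mul, mul_one]
    simp only [U, Set.mem_insert_iff, Set.mem_singleton_iff] at hε
    rcases hε with rfl | rfl | rfl | rfl
    · rw [← hd1]; apply Complex.ext <;> simp <;> linarith
    · rw [← hd3]; apply Complex.ext <;> simp <;> linarith
    · rw [← hd2]; apply Complex.ext <;> simp <;> linarith
    · rw [← hd4]; apply Complex.ext <;> simp <;> linarith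

lemma mem_Lset {m : ℕ} : {v : E m | ∃ c : (Fin m → Fin 2) → GaussianInt,
      v = ∑ a, (c a : ℂ) • WithLp.toLp 2 (kroneckerPower m a)} = {v : E m | L m v} := by
  ext v
  exact mem_iff m v

lemma scaled_inf {m : ℕ} {c : ℝ} (hinf : ∀ δ : E m → E m, (∀ r, S m r → ⟪r, δ r⟫ = 0) →
      (∀ r s, S m r → S m s → ⟪r, s⟫ = 2 ^ m * c → ⟪r, δ s⟫ + ⟪s, δ r⟫ ≤ 0) →
      ∃ A : E m →L[ℝ] E m, (∀ v, ⟪A v, v⟫ = 0) ∧ ∀ r, S m r → δ r = A r)
    (hle : ∀ r s, S m r → S m s → r ≠ s → ⟪r, s⟫ ≤ 2 ^ m * c)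
    (hex : ∃ r s, S m r ∧ S m s ∧ r ≠ s ∧ ⟪r, s⟫ = 2 ^ m * c) :
    IsJammed (kissingConfiguration {v : E m | L m v}) := by
  rw [kissing_eq]
  set l : ℝ := (Real.sqrt (2 ^ m))⁻¹ with hl
  have hpos : (0 : ℝ) < 2 ^ m := by positivity
  have hlpos : 0 < l := by rw [hl]; positivity
  have hl2 : l * l * 2 ^ m = 1 := by
    rw [hl, ← mul_inv, Real.mul_self_sqrt hpos.le, inv_mul_cancel₀ hpos.ne']
  have hin : ∀ r s : E m, ⟪l • r, l • s⟫ = l * l * ⟪r, s⟫ := by
    intro r s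
    rw [real_inner_smul_left, real_inner_smul_right]; ring
  apply jammed_of_inf (c := c) ((S_finite m).image _)
  · rintro _ ⟨v, hv, rfl⟩
    have h1 : ‖l • v‖ ^ 2 = 1 := by
      rw [← real_inner_self_eq_norm_sq, hin, real_inner_self_eq_norm_sq, hv.2, hl2]
    exact (pow_eq_one_iff_of_nonneg (norm_nonneg _) (by norm_num)).1 h1
  · rintro _ ⟨r, hr, rfl⟩ _ ⟨s, hs, rfl⟩ hrs
    have h1 := hle r s hr hs (fun h => hrs (by rw [h]))
    rw [hin]
    calc l * l * ⟪r, s⟫ ≤ l * l * (2 ^ m * c) := by gcongr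
      _ = (l * l * 2 ^ m) * c := by ring
      _ = c := by rw [hl2, one_mul]
  · obtain ⟨r, s, hr, hs, hne, h⟩ := hex
    refine ⟨_, ⟨r, hr, rfl⟩, _, ⟨s, hs, rfl⟩, ?_, ?_⟩
    · intro h'
      exact hne (smul_right_injective _ hlpos.ne' h')
    · rw [hin, h, ← mul_assoc, hl2, one_mul]
  · intro δ h1 h2
    obtain ⟨A, hA, hA1⟩ := hinf (fun v => δ (l • v)) (fun r hr => by
        have := h1 _ ⟨r, hr, rfl⟩
        rw [real_inner_smul_left] at this
        exact (mul_eq_zero.1 this).resolve_left hlpos.ne')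
      (fun r s hr hs h => by
        have := h2 _ ⟨r, hr, rfl⟩ _ ⟨s, hs, rfl⟩ (by
          rw [hin, h, ← mul_assoc, hl2, one_mul])
        rw [real_inner_smul_left, real_inner_smul_left, ← mul_add] at this
        exact nonpos_of_mul_nonpos_right this hlpos)
    refine ⟨l⁻¹ • A, fun v => ?_, ?_⟩
    · change ⟪l⁻¹ • A v, v⟫ = 0
      rw [real_inner_smul_left, hA, mul_zero]
    · rintro _ ⟨v, hv, rfl⟩
      change δ (l • v) = l⁻¹ • A (l • v)
      rw [map_smul, smul_smul, inv_mul_cancel₀ hlpos.ne', one_smul]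
      exact hA1 v hv

/-- **Main theorem.** For every `k ≥ 1` the kissing configuration of the Barnes-Wall lattice of rank
`2 ^ k` is jammed. -/
theorem result : ∀ k : ℕ, 1 ≤ k → IsJammed (kissingConfiguration (barnesWall k)) := by
  intro k hk
  obtain ⟨m, rfl⟩ : ∃ m, k = m + 1 := ⟨k - 1, by omega⟩
  change IsJammed (kissingConfiguration {v : E m | ∃ c : (Fin m → Fin 2) → GaussianInt,
      v = ∑ a, (c a : ℂ) • WithLp.toLp 2 (kroneckerPower m a)})
  rw [mem_Lset]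
  rcases Nat.eq_zero_or_pos m with rfl | hm
  · -- four points on the circle
    have hin2 : ∀ ε η : ℂ, ⟪ε • (e 0 : E 0), η • e 0⟫ = (η * (starRingEnd ℂ) ε).re := by
      intro ε η
      rw [real_inner_comm, inner_unit_smul_e, PiLp.smul_apply, e_apply, if_pos rfl, smul_eq_mul,
        mul_one]
    apply scaled_inf (c := 0)
    · intro δ h1 h2
      apply bw_inf_zero δ h1
      intro r s hr hs h
      exact h2 r s hr hs (by rw [h, mul_zero])
    · intro r s hr hs hrs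
      obtain ⟨ε, hε, rfl⟩ := S_zero hr
      obtain ⟨η, hη, rfl⟩ := S_zero hs
      have hne : ε ≠ η := fun h => hrs (by rw [h])
      rw [hin2, mul_zero]
      simp only [U, Set.mem_insert_iff, Set.mem_singleton_iff] at hε hη
      rcases hε with rfl | rfl | rfl | rfl <;> rcases hη with rfl | rfl | rfl | rfl <;>
        simp_all
    · have hS : ∀ ε ∈ U, S 0 (ε • e 0) := by
        intro ε hε
        refine ⟨?_, ?_⟩
        · have := L_unit hε (L_e (0 : Fin 0 → Fin 2))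
          rwa [pow_zero, one_smul] at this
        · rw [norm_smul, U_norm hε, norm_e]; norm_num
      refine ⟨(1 : ℂ) • e 0, Complex.I • e 0, hS _ (by simp [U]), hS _ (by simp [U]), ?_, ?_⟩
      · intro h
        have h1 : ⟪(1 : ℂ) • (e 0 : E 0), (1 : ℂ) • e 0⟫ =
            ⟪(1 : ℂ) • (e 0 : E 0), Complex.I • e 0⟫ := by rw [← h]
        rw [hin2, hin2] at h1
        simp at h1
      · rw [hin2]; simp
  · have hm' : m ≠ 0 := by omega
    apply scaled_inf (c := 1 / 2)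
    · intro δ h1 h2
      apply bw_inf hm' δ h1
      intro r s hr hs h
      exact h2 r s hr hs (by rw [h]; ring)
    · intro r s hr hs hrs
      have h1 := min_norm (L_sub hr.1 hs.1) (sub_ne_zero.2 hrs)
      rw [norm_sub_sq_real, hr.2, hs.2] at h1
      linarith
    · let p : J m := (0, 0)
      let q : J m := (0, 1)
      let l : J m := (fun _ => 1, 0)
      have hpq : p ≠ q := by simp [p, q]
      have hpl : p ≠ l := by
        intro h
        have := congrFun (congrArg Prod.fst h) ⟨0, hm⟩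
        simp [p, l] at this
      have hql : q ≠ l := by simp [q, l]
      have o : (1 : ℝ) = 1 ∨ (1 : ℝ) = -1 := Or.inl rfl
      have hin : ⟪(1 : ℝ) • fv (φ ^ (m - 1)) p + (1 : ℝ) • fv (φ ^ (m - 1)) q,
          (1 : ℝ) • fv (φ ^ (m - 1)) p + (1 : ℝ) • fv (φ ^ (m - 1)) l⟫ = 2 ^ m * (1 / 2) := by
        simp only [inner_add_left, inner_add_right, real_inner_smul_left, real_inner_smul_right,
          inner_fv, if_true, hpl, hpq.symm, hql, if_false, norm_pow_φ]
        rw [← pow_sub_one_mul hm' (2 : ℝ)]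
        ring
      refine ⟨_, _, S_root hm' hpq o o, S_root hm' hpl o o, ?_, hin⟩
      intro h
      rw [h, real_inner_self_eq_norm_sq, (S_root hm' hpl o o).2] at hin
      have : (0 : ℝ) < 2 ^ m := by positivity
      linarith

end Pool.Agent.Results.MP_389516_gt.BarnesWallJammed
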